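import Pool.Agent.W886.PM.Stm0

set_option autoImplicit false

namespace Pool.Agent.W164.PM

open Pool.Agent.NPC Pool.Agent.H620R2.Gauge Pool.Agent.H943R6.MC Pool.Agent.H622R2.Ckt
open Pool.Agent.W886.PM

theorem lift_inst (j : ℕ) (T : Fin (2 ^ (2 * j)) → Bool) :
    lift 2 (inst j T) = pairBits (pairBits (List.ofFn T) ((List.ofFn T).map (fun _ => true)))
      (List.replicate (H943R6.MC.sz j + 2) true) := by
  unfold lift inst
  rw [unpair_pairBits, List.replicate_append_replicate]

theorem task : Pool.Agent.W886.PM.S_TOTB := by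
  intro A j T hj
  rw [lift_inst]
  constructor
  · rintro ⟨n, s, T', M, P, hn, hWF, hs, ⟨hT', hM, hag⟩, hy⟩
    obtain ⟨h1, h2⟩ := HRD.pairBits_inj hy
    obtain ⟨h3, h4⟩ := HRD.pairBits_inj h1
    have h5 : H943R6.MC.sz j + 2 = s := by
      have := congrArg List.length h2
      simpa only [List.length_replicate] using this
    subst h3
    subst h4
    have h6 : 2 ^ (2 * j) = 2 ^ n := by rwa [List.length_ofFn] at hT'
    have h7 : 2 * j = n := Nat.pow_right_injective (le_refl 2) h6
    subst h7
    refine ⟨P, hWF, by rw [h5]; exact hs, ?_⟩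
    have hl : (table (2 * j) (bout A P)).length = 2 ^ (2 * j) := by
      rw [table, List.length_map, length_cube]
    refine List.ext_getElem (by rw [hl, List.length_ofFn]) ?_
    intro i h8 h9
    have hi : i < 2 ^ (2 * j) := by rwa [hl] at h8
    have h10 := hag i hi (by
      rw [List.getD_eq_getElem _ _ (by rw [List.length_map, List.length_ofFn]; exact hi),
        List.getElem_map])
    rw [List.getD_eq_getElem _ _ h8, List.getD_eq_getElem _ _ h9] at h10
    exact h10
  · rintro ⟨P, hWF, hs, ht⟩
    refine ⟨2 * j, H943R6.MC.sz j + 2, List.ofFn T, (List.ofFn T).map (fun _ => true), P,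
      by omega, hWF, hs, ⟨by rw [List.length_ofFn], by rw [List.length_map, List.length_ofFn],
        fun i _ _ => by rw [ht]⟩, rfl⟩

end Pool.Agent.W164.PM
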